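import Pool.Agent.Q223.POT.Final

/-!
# MP_102303_co, Q2: permanent-on-top fails for real matrices of every size `n ≥ 9`
-/

namespace Pool.Agent.Results.MP_102303_co.RealPermanentOnTop

open Equiv

/-- The Schur power matrix `π(A)`: rows and columns are indexed by the permutations of `Fin n`
and the entry at `(σ, τ)` is `∏ i, A (σ i) (τ i)`. -/
def schurPower {n : ℕ} (A : Matrix (Fin n) (Fin n) ℝ) :
    Matrix (Perm (Fin n)) (Perm (Fin n)) ℝ :=
  Matrix.of fun σ τ => ∏ i, A (σ i) (τ i)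

/-- `A` has the permanent-on-top property: its permanent is the largest eigenvalue of
`π(A)`. -/
def PermanentOnTop {n : ℕ} (A : Matrix (Fin n) (Fin n) ℝ) : Prop :=
  IsGreatest {μ : ℝ | ∃ x : Perm (Fin n) → ℝ, x ≠ 0 ∧ (schurPower A).mulVec x = μ • x}
    A.permanent

/-- For every `n ≥ 9` there is a real positive semidefinite `n × n` matrix `A` with positive
permanent such that `(46/45) per A` is an eigenvalue of `π(A)`.  In particular the
permanent-on-top property fails for some real positive semidefinite matrix of each size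
`9 ≤ n ≤ 15`. -/
theorem result :
    (∀ n : ℕ, 9 ≤ n → ∃ A : Matrix (Fin n) (Fin n) ℝ, A.PosSemidef ∧ 0 < A.permanent ∧
      (∃ x : Perm (Fin n) → ℝ, x ≠ 0 ∧
        (schurPower A).mulVec x = (46 / 45 * A.permanent) • x) ∧
      ¬ PermanentOnTop A) ∧
    ¬ (∀ n : ℕ, n ≤ 15 → ∀ A : Matrix (Fin n) (Fin n) ℝ, A.PosSemidef → PermanentOnTop A) := by
  have h : ∀ n : ℕ, 9 ≤ n → ∃ A : Matrix (Fin n) (Fin n) ℝ, A.PosSemidef ∧ 0 < A.permanent ∧
      (∃ x : Perm (Fin n) → ℝ, x ≠ 0 ∧
        (schurPower A).mulVec x = (46 / 45 * A.permanent) • x) ∧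
      ¬ PermanentOnTop A := by
    intro n hn
    obtain ⟨A, hA, hp, x, hx, h⟩ := Q223.POT.fails_fin n hn
    have he : (schurPower A).mulVec x = (46 / 45 * A.permanent) • x := by
      funext σ
      rw [Pi.smul_apply, smul_eq_mul, ← h σ]
      rfl
    refine ⟨A, hA, hp, ⟨x, hx, he⟩, fun hpot => ?_⟩
    have := hpot.2 ⟨x, hx, he⟩
    linarith
  refine ⟨h, fun hall => ?_⟩
  obtain ⟨A, hA, -, -, hn⟩ := h 9 le_rfl
  exact hn (hall 9 (by norm_num) A hA)

end Pool.Agent.Results.MP_102303_co.RealPermanentOnTop
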