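import Mathlib
import Pool.Agent.Q223.FC.F

/-!
# Flexible catalysis obeys the conditions of standard catalysis

States are given by their Schmidt vectors, `ψ → φ` by majorisation.
-/

set_option autoImplicit false

namespace Pool.Agent.Q223.Old.MP_261b1b_mp_FlexibleConditions

open Finset

/-- a pure bipartite state, given by its Schmidt vector -/
structure State where
  d : ℕ
  v : Fin d → ℝ
  nonneg : ∀ i, 0 ≤ v i
  sum_one : ∑ i, v i = 1

/-- `v` is majorised by `w` (nonnegative vectors, zeros may be appended): the sum of any `m`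
entries of `v` is at most the sum of some at most `m` entries of `w`, and the totals agree -/
def Majorised {ι κ : Type} [Fintype ι] [Fintype κ] (v : ι → ℝ) (w : κ → ℝ) : Prop :=
  (∀ S : Finset ι, ∃ T : Finset κ, T.card ≤ S.card ∧ ∑ i ∈ S, v i ≤ ∑ j ∈ T, w j) ∧
    ∑ i, v i = ∑ j, w j

/-- `ψ ⊗ η → φ ⊗ η'` is possible in LOCC -/
def LOCC (ψ η φ η' : State) : Prop :=
  Majorised (fun p : Fin ψ.d × Fin η.d => ψ.v p.1 * η.v p.2)
    (fun p : Fin φ.d × Fin η'.d => φ.v p.1 * η'.v p.2)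

/-- standard catalysis -/
def Cat (ψ φ : State) : Prop := ∃ η : State, LOCC ψ η φ η

/-- flexible catalysis, by a set of states which may be infinite -/
def CatF (ψ φ : State) : Prop :=
  ∃ S : Set State, S.Nonempty ∧ ∀ η ∈ S, ∃ η' ∈ S, LOCC ψ η φ η'

open Classical in
/-- the same Schmidt coefficients -/
def Same (ψ φ : State) : Prop :=
  ∀ t : ℝ, 0 < t →
    (univ.filter (fun i => ψ.v i = t)).card = (univ.filter (fun j => φ.v j = t)).card

open Classical in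
/-- the number of nonzero Schmidt coefficients -/
noncomputable def rank (ψ : State) : ℕ := (univ.filter (fun i => ψ.v i ≠ 0)).card

open Classical in
/-- the strict inequalities of Klimesh and Turgut -/
def KT (ψ φ : State) : Prop :=
  (∀ r : ℝ, 1 < r → ∑ i, ψ.v i ^ r < ∑ j, φ.v j ^ r) ∧
  (∑ j, -(φ.v j * Real.log (φ.v j)) < ∑ i, -(ψ.v i * Real.log (ψ.v i))) ∧
  (∀ r : ℝ, 0 < r → r < 1 → ∑ j, φ.v j ^ r < ∑ i, ψ.v i ^ r) ∧
  (rank φ < rank ψ ∨ (rank φ = rank ψ ∧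
    ∑ j ∈ univ.filter (fun j => φ.v j ≠ 0), Real.log (φ.v j) <
      ∑ i ∈ univ.filter (fun i => ψ.v i ≠ 0), Real.log (ψ.v i) ∧
    ∀ r : ℝ, r < 0 → ∑ i ∈ univ.filter (fun i => ψ.v i ≠ 0), ψ.v i ^ r <
      ∑ j ∈ univ.filter (fun j => φ.v j ≠ 0), φ.v j ^ r))

open Pool.Agent.Q223.FC in
theorem main (ψ φ : State) (h : CatF ψ φ) : Same ψ φ ∨ KT ψ φ := by
  obtain ⟨S, ⟨η₀, hη₀⟩, hS⟩ := h
  choose! nx hnx hnxm using hS
  set f : ℕ → State := fun n => nx^[n] η₀ with hf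
  have hmem : ∀ n, f n ∈ S := by
    intro n
    induction n with
    | zero => exact hη₀
    | succ n ih =>
      rw [hf]
      simp only [Function.iterate_succ_apply']
      exact hnx _ ih
  have hch : ∀ n, LOCC ψ (f n) φ (f (n + 1)) := by
    intro n
    have : f (n + 1) = nx (f n) := by
      rw [hf]; simp only [Function.iterate_succ_apply']
    rw [this]
    exact hnxm _ (hmem n)
  have h1 := chain_conditions (x := ψ.v) (y := φ.v) (γ := fun n => Fin (f n).d)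
    (e := fun n => (f n).v) ⟨ψ.nonneg, ψ.sum_one⟩ ⟨φ.nonneg, φ.sum_one⟩
    (fun n => ⟨(f n).nonneg, (f n).sum_one⟩) (fun n => Maj.toP (hch n))
  rcases h1 with h | h
  · exact Or.inl h
  · right
    refine ⟨h.1, ?_, h.2.2.1, h.2.2.2⟩
    have := h.2.1
    simpa only [Real.negMulLog, neg_mul] using this

open Pool.Agent.Q223.FC in
theorem same_cat (ψ φ : State) (h : Same ψ φ) : Cat ψ φ := by
  refine ⟨⟨1, fun _ => 1, fun _ => zero_le_one, by simp⟩, ?_⟩
  have h1 : Maj ψ.v φ.v := maj_of_same ψ.nonneg h (ψ.sum_one.trans φ.sum_one.symm)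
  refine ⟨fun S => ?_, ?_⟩
  · obtain ⟨T, hT, hTS⟩ := h1.1 (S.image Prod.fst)
    refine ⟨T ×ˢ univ, ?_, ?_⟩
    · rw [card_product, card_univ, Fintype.card_fin, mul_one]
      exact hT.trans card_image_le
    · have e1 : ∑ p ∈ S, ψ.v p.1 * 1 = ∑ i ∈ S.image Prod.fst, ψ.v i := by
        rw [sum_image]
        · simp
        · rintro ⟨a, b⟩ _ ⟨a', b'⟩ _ hab
          exact Prod.ext hab (Subsingleton.elim (α := Fin 1) b b')
      have e2 : ∑ p ∈ T ×ˢ (univ : Finset (Fin 1)), φ.v p.1 * 1 = ∑ j ∈ T, φ.v j := by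
        rw [sum_product]
        simp
      show ∑ p ∈ S, ψ.v p.1 * 1 ≤ ∑ p ∈ T ×ˢ (univ : Finset (Fin 1)), φ.v p.1 * 1
      rw [e1, e2]
      exact hTS
  · show ∑ p : Fin ψ.d × Fin 1, ψ.v p.1 * 1 = ∑ p : Fin φ.d × Fin 1, φ.v p.1 * 1
    rw [Fintype.sum_prod_type, Fintype.sum_prod_type]
    simp [ψ.sum_one, φ.sum_one]

theorem result :
    (∀ ψ φ : State, CatF ψ φ → Same ψ φ ∨ KT ψ φ) ∧
    (∀ ψ φ : State, Same ψ φ → Cat ψ φ) ∧
    ((∀ ψ φ : State, KT ψ φ → Cat ψ φ) → ∀ ψ φ : State, CatF ψ φ ↔ Cat ψ φ) := by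
  refine ⟨main, same_cat, fun hKT ψ φ => ⟨fun h => ?_, ?_⟩⟩
  · rcases main ψ φ h with h | h
    · exact same_cat ψ φ h
    · exact hKT ψ φ h
  · rintro ⟨η, hη⟩
    exact ⟨{η}, ⟨η, rfl⟩, fun η₁ h₁ => ⟨η, rfl, by rw [Set.mem_singleton_iff.1 h₁]; exact hη⟩⟩

end Pool.Agent.Q223.Old.MP_261b1b_mp_FlexibleConditions
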